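import Pool.Agent.V5helper67.CI.Stm

/-!
# Job CYC: the circumference of the explicit graph
-/

open Finset

namespace Pool.Agent.V5helper82.CI

open Pool.Agent.Helper120.EaModel Pool.Agent.V5helper67.EC Pool.Agent.V5helper67.EC.Pm
open Pool.Agent.V5helper67.CI Pool.Agent.V5helper67.EA

variable {Q : Pm}

theorem adj_cases {u y : Q.Vx} (h : ((GG Q).subgraph Finset.univ).Adj u y) :
    ∃ e : Q.Ex, (hiV e = u ∧ loV e = y) ∨ (hiV e = y ∧ loV e = u) := by
  rw [sg_adj] at h
  obtain ⟨e, _, he⟩ := h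
  refine ⟨e, ?_⟩
  have h1 : s(hiV e, loV e) = s(u, y) := he
  rw [Sym2.eq_iff] at h1
  exact h1

theorem sv_inj {j j' : Fin Q.L} {l l' : Fin Q.g} {t : Fin (Q.sl l)} {t' : Fin (Q.sl l')}
    (h : sv j l t = sv j' l' t') : j = j' ∧ l = l' ∧ t.val = t'.val := by
  simp only [sv, Option.some.injEq, Sum.inl.injEq, Prod.mk.injEq] at h
  obtain ⟨h1, h2⟩ := h
  have h3 : l = l' := congrArg Sigma.fst h2
  subst h3
  refine ⟨h1, rfl, ?_⟩
  have h4 := eq_of_heq (Sigma.mk.inj h2).2
  rw [h4]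

theorem mv_inj {j j' : Fin Q.L} {l l' : Fin Q.g} {t : Fin (Q.rm l)} {t' : Fin (Q.rm l')}
    (h : mv j l t = mv j' l' t') : j = j' ∧ l = l' ∧ t.val = t'.val := by
  simp only [mv, Option.some.injEq, Sum.inr.injEq, Sum.inl.injEq, Prod.mk.injEq] at h
  obtain ⟨h1, h2⟩ := h
  have h3 : l = l' := congrArg Sigma.fst h2
  subst h3
  refine ⟨h1, rfl, ?_⟩
  have h4 := eq_of_heq (Sigma.mk.inj h2).2
  rw [h4]

theorem tip_ne_mv {j j' : Fin Q.L} {l l' : Fin Q.g} {t' : Fin (Q.rm l')} :
    tip j l ≠ mv j' l' t' := by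
  intro h
  simp [tip, sv, mv] at h

theorem tip_ne_leaf {j : Fin Q.L} {l : Fin Q.g} {q : Fin Q.P} :
    tip j l ≠ some (Sum.inr (Sum.inr q)) := by
  intro h
  simp [tip, sv] at h

/-- the end of an edge -/
theorem lo_cases (e : Q.Ex) : loV e = none ∨ (∃ j l t, loV e = sv j l t) := by
  rcases e with (⟨j', ⟨l', t'⟩⟩ | ⟨j', ⟨i', k'⟩⟩ | q) | ⟨j', ⟨i', k'⟩⟩
  · show (if t'.val = 0 then none else sv j' l' ⟨t'.val - 1, by have := t'.2; omega⟩) = none ∨
      (∃ j l t, (if t'.val = 0 then none else sv j' l' ⟨t'.val - 1, by have := t'.2; omega⟩) =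
        sv j l t)
    split_ifs with h0
    · exact Or.inl rfl
    · exact Or.inr ⟨_, _, _, rfl⟩
  · exact Or.inr ⟨j', i', _, rfl⟩
  · exact Or.inl rfl
  · exact Or.inr ⟨j', pr i', _, rfl⟩

theorem nb_mv {j : Fin Q.L} {i : Fin Q.g} {k : Fin (Q.rm i)} {y : Q.Vx}
    (h : ((GG Q).subgraph Finset.univ).Adj (mv j i k) y) : y = tip j i ∨ y = tip j (pr i) := by
  obtain ⟨e, ⟨h1, h2⟩ | ⟨h1, h2⟩⟩ := adj_cases h
  · rcases e with d | x
    · have h3 : some d = mv j i k := h1
      have h4 : d = Sum.inr (Sum.inl (j, ⟨i, k⟩)) := Option.some.inj h3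
      subst h4
      exact Or.inl h2.symm
    · obtain ⟨j', ⟨i', k'⟩⟩ := x
      have h3 : mv j' i' k' = mv j i k := h1
      obtain ⟨h4, h5, _⟩ := mv_inj h3
      subst h4
      subst h5
      exact Or.inr h2.symm
  · exfalso
    rcases lo_cases e with h3 | ⟨j', l', t', h3⟩
    · rw [h2] at h3
      simp [mv] at h3
    · rw [h2] at h3
      simp [mv, sv] at h3

theorem nb_leaf {q : Fin Q.P} {y : Q.Vx}
    (h : ((GG Q).subgraph Finset.univ).Adj (some (Sum.inr (Sum.inr q))) y) : y = none := by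
  obtain ⟨e, ⟨h1, h2⟩ | ⟨h1, h2⟩⟩ := adj_cases h
  · rcases e with d | x
    · have h3 : some d = some (Sum.inr (Sum.inr q)) := h1
      have h4 : d = Sum.inr (Sum.inr q) := Option.some.inj h3
      subst h4
      exact h2.symm
    · obtain ⟨j', ⟨i', k'⟩⟩ := x
      have h3 : mv j' i' k' = some (Sum.inr (Sum.inr q)) := h1
      simp [mv] at h3
  · exfalso
    rcases lo_cases e with h3 | ⟨j', l', t', h3⟩
    · rw [h2] at h3
      simp at h3
    · rw [h2] at h3
      simp [sv] at h3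

theorem nb_sv {j : Fin Q.L} {l : Fin Q.g} {t : Fin (Q.sl l)} (ht : t.val + 1 < Q.sl l) {y : Q.Vx}
    (h : ((GG Q).subgraph Finset.univ).Adj (sv j l t) y) :
    y = par (Sum.inl (j, ⟨l, t⟩)) ∨ y = sv j l ⟨t.val + 1, ht⟩ := by
  have htip : ∀ (j' : Fin Q.L) (i' : Fin Q.g), tip j' i' ≠ sv j l t := by
    intro j' i' h3
    obtain ⟨h4, h5, h6⟩ := sv_inj (h3 : sv j' i' _ = sv j l t)
    subst h5
    simp only at h6
    omega
  obtain ⟨e, ⟨h1, h2⟩ | ⟨h1, h2⟩⟩ := adj_cases h
  · rcases e with d | x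
    · have h3 : some d = sv j l t := h1
      have h4 : d = Sum.inl (j, ⟨l, t⟩) := Option.some.inj h3
      subst h4
      exact Or.inl h2.symm
    · obtain ⟨j', ⟨i', k'⟩⟩ := x
      have h3 : mv j' i' k' = sv j l t := h1
      simp [mv, sv] at h3
  · rcases e with (⟨j', ⟨l', t'⟩⟩ | ⟨j', ⟨i', k'⟩⟩ | q) | ⟨j', ⟨i', k'⟩⟩
    · have h3 : (if t'.val = 0 then none else sv j' l' ⟨t'.val - 1, by have := t'.2; omega⟩) =
        sv j l t := h2
      split_ifs at h3 with h0
      · exfalso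
        simp [sv] at h3
      · obtain ⟨h4, h5, h6⟩ := sv_inj h3
        subst h4
        subst h5
        simp only at h6
        refine Or.inr ?_
        rw [← h1]
        show sv j' l' t' = _
        congr 1
        apply Fin.ext
        show t'.val = t.val + 1
        omega
    · exact absurd h2 (htip j' i')
    · exfalso
      have h3 : (none : Q.Vx) = sv j l t := h2
      simp [sv] at h3
    · exact absurd h2 (htip j' (pr i'))

/-- the block of a vertex -/
def fb : Q.Vx → ℕ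
  | none => 0
  | some (Sum.inl (j, _)) => j.val + 1
  | some (Sum.inr (Sum.inl (j, _))) => j.val + 1
  | some (Sum.inr (Sum.inr _)) => 0

theorem fb_edge (e : Q.Ex) (h : loV e ≠ none) : fb (hiV e) = fb (loV e) := by
  rcases e with (⟨j', ⟨l', t'⟩⟩ | ⟨j', ⟨i', k'⟩⟩ | q) | ⟨j', ⟨i', k'⟩⟩
  · have h1 : loV (Sum.inl (Sum.inl (j', ⟨l', t'⟩)) : Q.Ex) =
      if t'.val = 0 then none else sv j' l' ⟨t'.val - 1, by have := t'.2; omega⟩ := rfl
    rw [h1] at h ⊢
    split_ifs at h ⊢ with h0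
    · exact absurd rfl h
    · rfl
  · rfl
  · exact absurd rfl h
  · rfl

theorem fb_adj (a b : Q.Vx) (h : ((GG Q).subgraph Finset.univ).Adj a b) (ha : a ≠ none)
    (hb : b ≠ none) : fb a = fb b := by
  obtain ⟨e, ⟨h1, h2⟩ | ⟨h1, h2⟩⟩ := adj_cases h
  · rw [← h1, ← h2]
    exact fb_edge e (by rw [h2]; exact hb)
  · rw [← h1, ← h2]
    exact (fb_edge e (by rw [h2]; exact ha)).symm

theorem t_CYC (h : S_GEN) : S_CYC := by
  classical
  intro Q v p hp
  obtain ⟨g1, g2, g3, g4⟩ := h Q.Vx ((GG Q).subgraph Finset.univ) v p hp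
  have hleaf : ∀ q : Fin Q.P, (some (Sum.inr (Sum.inr q)) : Q.Vx) ∉ p.support := by
    intro q hq
    exact (g2 _ none none hq fun y hy => Or.inl (nb_leaf hy)).1 rfl
  obtain ⟨u0, hu0, hu0n, hconst⟩ := g1 none fb fb_adj
  -- the block
  obtain ⟨j0, hj0⟩ : ∃ j0 : Fin Q.L, fb u0 = j0.val + 1 := by
    rcases u0 with _ | (⟨j, x⟩ | ⟨j, x⟩ | q)
    · exact absurd rfl hu0n
    · exact ⟨j, rfl⟩
    · exact ⟨j, rfl⟩
    · exact absurd hu0 (hleaf q)
  have z0 : ∀ l : Fin Q.g, 0 < Q.sl l := fun l => Q.sl_pos l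
  set Sp : Finset (Fin Q.g) := Finset.univ.filter fun l =>
    p.toSubgraph.Adj none (sv j0 l ⟨0, z0 l⟩) with hSp
  have hSpc : Sp.card ≤ 2 := by
    have h1 := g3 none (Sp.image fun l => sv j0 l ⟨0, z0 l⟩) (by
      intro y hy
      obtain ⟨l, hl, rfl⟩ := Finset.mem_image.1 hy
      exact (Finset.mem_filter.1 hl).2)
    rwa [Finset.card_image_of_injective] at h1
    intro l l' hll
    exact (sv_inj hll).2.1
  have hinner : ∀ (l : Fin Q.g) (n : ℕ) (hn : n + 1 < Q.sl l),
      sv j0 l ⟨n, by omega⟩ ∈ p.support → l ∈ Sp := by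
    intro l n
    induction n with
    | zero =>
      intro hn hm
      obtain ⟨_, h2, _⟩ := g2 _ _ _ hm fun y hy => nb_sv (t := ⟨0, by omega⟩) hn hy
      rw [hSp, Finset.mem_filter]
      exact ⟨Finset.mem_univ _, h2.symm⟩
    | succ n ih =>
      intro hn hm
      obtain ⟨_, h2, _⟩ := g2 _ _ _ hm fun y hy => nb_sv (t := ⟨n + 1, by omega⟩) hn hy
      refine ih (by omega) ?_
      have h3 := h2.snd_mem
      rw [SimpleGraph.Walk.mem_verts_toSubgraph] at h3
      exact h3
  set Kc : Fin Q.g → Finset Q.Vx := fun i =>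
    (Finset.univ.filter fun k : Fin (Q.rm i) => mv j0 i k ∈ p.support).image (mv j0 i) with hKc
  have hKcc : ∀ i, (Kc i).card ≤ 2 := by
    intro i
    refine g3 (tip j0 i) (Kc i) ?_
    intro y hy
    obtain ⟨k, hk, rfl⟩ := Finset.mem_image.1 hy
    exact ((g2 _ _ _ (Finset.mem_filter.1 hk).2 fun y hy => nb_mv hy).2.1).symm
  have hS := g4 (insert none ((Finset.univ.image (tip j0)) ∪
    ((Sp.biUnion fun l => Finset.univ.image (sv j0 l)) ∪ (Finset.univ.biUnion Kc)))) (by
      intro u hu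
      rcases u with _ | (⟨j, ⟨l, t⟩⟩ | ⟨j, ⟨i, k⟩⟩ | q)
      · exact Finset.mem_insert_self _ _
      · refine Finset.mem_insert_of_mem ?_
        have h1 := hconst _ hu (by simp)
        rw [hj0] at h1
        have h2 : j = j0 := by
          apply Fin.ext
          have h3 : j.val + 1 = j0.val + 1 := h1
          omega
        subst h2
        by_cases ht : t.val + 1 < Q.sl l
        · refine Finset.mem_union_right _ (Finset.mem_union_left _ ?_)
          refine Finset.mem_biUnion.2 ⟨l, hinner l t.val ht hu, ?_⟩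
          exact Finset.mem_image.2 ⟨t, Finset.mem_univ _, rfl⟩
        · refine Finset.mem_union_left _ ?_
          refine Finset.mem_image.2 ⟨l, Finset.mem_univ _, ?_⟩
          show sv j l _ = sv j l t
          congr 1
          apply Fin.ext
          show Q.sl l - 1 = t.val
          have := t.2
          omega
      · refine Finset.mem_insert_of_mem (Finset.mem_union_right _ (Finset.mem_union_right _ ?_))
        have h1 := hconst _ hu (by simp)
        rw [hj0] at h1
        have h2 : j = j0 := by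
          apply Fin.ext
          have h3 : j.val + 1 = j0.val + 1 := h1
          omega
        subst h2
        refine Finset.mem_biUnion.2 ⟨i, Finset.mem_univ _, ?_⟩
        exact Finset.mem_image.2 ⟨k, Finset.mem_filter.2 ⟨Finset.mem_univ _, hu⟩, rfl⟩
      · exact absurd hu (hleaf q))
  have c1 : (Finset.univ.image (tip j0 : Fin Q.g → Q.Vx)).card ≤ Q.g :=
    Finset.card_image_le.trans (by simp)
  have c2 : (Sp.biUnion fun l => Finset.univ.image (sv j0 l)).card ≤ 2 * (Q.N + Q.n) := by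
    refine Finset.card_biUnion_le.trans ?_
    refine (Finset.sum_le_card_nsmul Sp _ (Q.N + Q.n) fun l _ => ?_).trans ?_
    · refine Finset.card_image_le.trans ?_
      rw [Finset.card_univ, Fintype.card_fin]
      exact Q.sl_le l
    · rw [smul_eq_mul]
      exact Nat.mul_le_mul_right _ hSpc
  have c3 : (Finset.univ.biUnion Kc).card ≤ 2 * Q.g := by
    refine Finset.card_biUnion_le.trans ?_
    refine (Finset.sum_le_card_nsmul Finset.univ _ 2 fun i _ => hKcc i).trans ?_
    rw [Finset.card_univ, Fintype.card_fin, smul_eq_mul, mul_comm]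
  refine hS.trans ((Finset.card_insert_le _ _).trans ?_)
  have c4 := Finset.card_union_le (Finset.univ.image (tip j0 : Fin Q.g → Q.Vx))
    ((Sp.biUnion fun l => Finset.univ.image (sv j0 l)) ∪ (Finset.univ.biUnion Kc))
  have c5 := Finset.card_union_le (Sp.biUnion fun l => Finset.univ.image (sv j0 l))
    (Finset.univ.biUnion Kc)
  omega

end Pool.Agent.V5helper82.CI
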